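import Pool.Agent.Run7.h321.UM.Q3
import Pool.Agent.Run7.h429.UM.Q2
import Pool.Agent.Run7.h403.UM.Q1
import Pool.Agent.Run7.h759.UM.Iface3

/-!
# Project UM, piece Q5: one layer is enough, without ramification in the tower

The proofs follow those of helper321 (`Run7/h321/UM/Q3.lean`) and helper429 (`Run7/h429/UM/Q2.lean`).
-/

set_option autoImplicit false

namespace Pool.Agent.Run7.h228.UM

open Subgroup Pool.Agent.Q60.MU Pool.Agent.W5h77.MB Pool.Agent.Run7.h759.UM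
open Pool.Agent.Run7.h594.UM (comm_mem_of_gens pow_mem_of_gens normal_of_gens conj_mem_of_gens)
open Pool.Agent.Run7.h321.UM (exists_quo exists_aut nofix)
open Pool.Agent.Run7.h429.UM (pow_conj_form index_cyc setup end_pow fixed_mod)
open scoped commutatorElement

variable {𝔾 : Type} [Group 𝔾]

/-- a stable subgroup as in the definition of `RelLe` -/
theorem exists_stable0 [TopologicalSpace 𝔾] [ContinuousMul 𝔾] {p : ℕ} [hp : Fact p.Prime]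
    {Ω : Type} [MulAction 𝔾 Ω] {I : Ω → Subgroup 𝔾} {K KR K' : Subgroup 𝔾} {γ h : 𝔾}
    {ℓ q : ℕ} (hI : ∀ (g : 𝔾) (w : Ω), ∀ x ∈ I w, g * x * g⁻¹ ∈ I (g • w))
    (L : Lay0 p I K KR K' γ h q) (hℓ : ℓ.Prime) (hℓp : ℓ ≠ p) (hh : h ^ ℓ ∈ K')
    {W : Subgroup 𝔾} (hWK : W ≤ K') (hWo : IsOpen (W : Set 𝔾)) (hW0 : W.relIndex K' ≠ 0)
    (hg : gens p I K' ⊆ W) (hfix : ∀ x ∈ K', ⁅h, x⁆ ∈ W → x ∈ W) :
    ∃ W₃ : Subgroup 𝔾, W₃ ≤ W ∧ IsOpen (W₃ : Set 𝔾) ∧ W₃.relIndex K' ≠ 0 ∧ gens p I K' ⊆ W₃ ∧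
      (∀ x ∈ W₃, h * x * h⁻¹ ∈ W₃) ∧ (∀ g ∈ K, ∀ x ∈ W₃, g * x * g⁻¹ ∈ W₃) ∧
      (∀ x ∈ K', ⁅h, x⁆ ∈ W₃ → x ∈ W₃) := by
  have hK'K : K' ≤ K := L.le1.trans L.le2
  -- `K'` has finite index in `K`
  have hfin : K'.relIndex K ≠ 0 := by
    obtain ⟨s, hs⟩ := L.powK
    have hps : 0 < p ^ s := Nat.pos_of_ne_zero (pow_ne_zero _ hp.out.ne_zero)
    have hf : Finite (K ⧸ K'.subgroupOf K) := by
      refine Finite.of_surjective (fun i : Fin (p ^ s) =>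
        (QuotientGroup.mk (⟨γ, L.memγ⟩ ^ (i : ℕ)) : K ⧸ K'.subgroupOf K)) ?_
      intro v
      obtain ⟨⟨x, hx⟩, rfl⟩ := QuotientGroup.mk_surjective v
      obtain ⟨i, κ, hκ, rfl⟩ := L.gen x hx
      refine ⟨⟨i % p ^ s, Nat.mod_lt _ hps⟩, ?_⟩
      rw [QuotientGroup.eq, mem_subgroupOf]
      push_cast
      have h1 : γ ^ i = γ ^ (i % p ^ s) * (γ ^ p ^ s) ^ (i / p ^ s) := by
        rw [← pow_mul, ← pow_add, Nat.mod_add_div]
      rw [h1]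
      have h2 : (γ ^ (i % p ^ s))⁻¹ * (γ ^ (i % p ^ s) * (γ ^ p ^ s) ^ (i / p ^ s) * κ) =
          (γ ^ p ^ s) ^ (i / p ^ s) * κ := by group
      rw [h2]
      exact K'.mul_mem (K'.pow_mem hs _) hκ
    intro h0
    exact (Subgroup.index_ne_zero_of_finite (H := K'.subgroupOf K)) h0
  -- powers of `h`
  have hpowK' : ∀ (i : ℕ), ∀ x ∈ K', h ^ i * x * (h ^ i)⁻¹ ∈ K' := by
    intro i
    induction i with
    | zero => intro x hx; simpa using hx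
    | succ i ih =>
      intro x hx
      have h1 : h ^ (i + 1) * x * (h ^ (i + 1))⁻¹ = h * (h ^ i * x * (h ^ i)⁻¹) * h⁻¹ := by
        rw [pow_succ']
        group
      rw [h1]
      exact L.hK' _ (ih x hx)
  have hpowK : ∀ (i : ℕ), ∀ x ∈ K, h ^ i * x * (h ^ i)⁻¹ ∈ K := by
    intro i
    induction i with
    | zero => intro x hx; simpa using hx
    | succ i ih =>
      intro x hx
      have h1 : h ^ (i + 1) * x * (h ^ (i + 1))⁻¹ = h * (h ^ i * x * (h ^ i)⁻¹) * h⁻¹ := by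
        rw [pow_succ']
        group
      rw [h1]
      exact L.hK _ (ih x hx)
  have hinv : ∀ x ∈ K', h⁻¹ * x * h ∈ K' := by
    intro x hx
    obtain ⟨m, rfl⟩ : ∃ m, ℓ = m + 1 := ⟨ℓ - 1, by have := hℓ.pos; omega⟩
    have h1 : h⁻¹ * x * h = h ^ m * ((h ^ (m + 1))⁻¹ * x * h ^ (m + 1)) * (h ^ m)⁻¹ := by
      rw [pow_succ]
      group
    rw [h1]
    exact hpowK' m _ (K'.mul_mem (K'.mul_mem (K'.inv_mem hh) hx) hh)
  have hinvpow : ∀ (i : ℕ), ∀ x ∈ K', (h ^ i)⁻¹ * x * h ^ i ∈ K' := by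
    intro i
    induction i with
    | zero => intro x hx; simpa using hx
    | succ i ih =>
      intro x hx
      have h1 : (h ^ (i + 1))⁻¹ * x * h ^ (i + 1) = h⁻¹ * ((h ^ i)⁻¹ * x * h ^ i) * h := by
        rw [pow_succ]
        group
      rw [h1]
      exact hinv _ (ih x hx)
  -- stable under `K`
  obtain ⟨W₁, hW1W, hW1o, hW10, hg1, hst1⟩ := exists_core hI L.nK hfin hWK hWo hW0 hg
  have hW1K : W₁ ≤ K' := hW1W.trans hWK
  -- stable under `h` as well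
  let f : Fin ℓ → (𝔾 →* 𝔾) := fun i => (MulAut.conj (h ^ (i : ℕ))).toMonoidHom
  have hf : ∀ i x, f i x = h ^ (i : ℕ) * x * (h ^ (i : ℕ))⁻¹ := fun i x => rfl
  let W₂ : Subgroup 𝔾 := ⨅ i, W₁.comap (f i)
  have hmem : ∀ x, x ∈ W₂ ↔ ∀ i : Fin ℓ, h ^ (i : ℕ) * x * (h ^ (i : ℕ))⁻¹ ∈ W₁ := by
    intro x
    show x ∈ (⨅ i, W₁.comap (f i)) ↔ _
    rw [mem_iInf]
    rfl
  have hW2W1 : W₂ ≤ W₁ := by
    intro x hx
    have h1 := (hmem x).1 hx ⟨0, hℓ.pos⟩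
    simpa using h1
  have hW2o : IsOpen (W₂ : Set 𝔾) := by
    have h1 : (W₂ : Set 𝔾) = ⋂ i : Fin ℓ, {x | h ^ (i : ℕ) * x * (h ^ (i : ℕ))⁻¹ ∈ W₁} := by
      ext x
      rw [SetLike.mem_coe, hmem, Set.mem_iInter]
      rfl
    rw [h1]
    refine isOpen_iInter_of_finite fun i => ?_
    exact hW1o.preimage ((continuous_const.mul continuous_id).mul continuous_const)
  have hW20 : W₂.relIndex K' ≠ 0 := by
    refine relIndex_iInf_ne_zero fun i => ?_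
    rw [relIndex_comap]
    have h1 : K'.map (f i) = K' := by
      apply le_antisymm
      · rintro _ ⟨x, hx, rfl⟩
        exact hpowK' i x hx
      · intro x hx
        refine ⟨(h ^ (i : ℕ))⁻¹ * x * h ^ (i : ℕ), hinvpow i x hx, ?_⟩
        rw [hf]
        group
    rw [h1]
    exact hW10
  have hg2 : gens p I K' ⊆ W₂ := by
    intro y hy
    rw [SetLike.mem_coe, hmem]
    intro i
    exact hg1 (gens_conj hI (hpowK' i) hy)
  have hst2 : ∀ g ∈ K, ∀ x ∈ W₂, g * x * g⁻¹ ∈ W₂ := by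
    intro g hgK x hx
    rw [hmem] at hx ⊢
    intro i
    have h1 : h ^ (i : ℕ) * (g * x * g⁻¹) * (h ^ (i : ℕ))⁻¹ =
        (h ^ (i : ℕ) * g * (h ^ (i : ℕ))⁻¹) * (h ^ (i : ℕ) * x * (h ^ (i : ℕ))⁻¹) *
          (h ^ (i : ℕ) * g * (h ^ (i : ℕ))⁻¹)⁻¹ := by group
    rw [h1]
    exact hst1 _ (hpowK i g hgK) _ (hx i)
  have hsth2 : ∀ x ∈ W₂, h * x * h⁻¹ ∈ W₂ := by
    intro x hx
    have hxW1 := hW2W1 hx
    rw [hmem] at hx ⊢
    intro i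
    have h1 : h ^ (i : ℕ) * (h * x * h⁻¹) * (h ^ (i : ℕ))⁻¹ =
        h ^ ((i : ℕ) + 1) * x * (h ^ ((i : ℕ) + 1))⁻¹ := by
      rw [pow_succ]
      group
    rw [h1]
    by_cases hi : (i : ℕ) + 1 < ℓ
    · exact hx ⟨(i : ℕ) + 1, hi⟩
    · have h2 : (i : ℕ) + 1 = ℓ := by
        have := i.2
        omega
      rw [h2]
      exact hst1 _ (hK'K hh) _ hxW1
  have hW2K : W₂ ≤ K' := hW2W1.trans hW1K
  have hconj : ∀ {a b : 𝔾}, a ∈ K' → b ∈ W₂ → a * b * a⁻¹ ∈ W₂ := fun ha hb =>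
    conj_mem_of_gens hW2K hg2 ha hb
  -- `h` commutes with `K` modulo `K'`
  have hcomm : ∀ g ∈ K, ∃ u ∈ K', h * g * h⁻¹ = u * g := by
    have hpow : ∀ i : ℕ, ∃ u ∈ K', h * γ ^ i * h⁻¹ = u * γ ^ i := by
      intro i
      induction i with
      | zero => exact ⟨1, K'.one_mem, by simp⟩
      | succ i ih =>
        obtain ⟨u, hu, hu'⟩ := ih
        refine ⟨u * (γ ^ i * ⁅h, γ⁆ * (γ ^ i)⁻¹),
          K'.mul_mem hu (L.nK _ (K.pow_mem L.memγ i) _ L.comm), ?_⟩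
        have h1 : h * γ ^ (i + 1) * h⁻¹ = (h * γ ^ i * h⁻¹) * (h * γ * h⁻¹) := by
          rw [pow_succ]
          group
        rw [h1, hu', commutatorElement_def, pow_succ]
        group
    intro g hgK
    obtain ⟨i, κ, hκ, rfl⟩ := L.gen g hgK
    obtain ⟨u, hu, hu'⟩ := hpow i
    have hgi : γ ^ i ∈ K := K.pow_mem L.memγ i
    refine ⟨u * (γ ^ i * (h * κ * h⁻¹) * κ⁻¹ * (γ ^ i)⁻¹), K'.mul_mem hu ?_, ?_⟩
    · have h1 : γ ^ i * (h * κ * h⁻¹) * κ⁻¹ * (γ ^ i)⁻¹ =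
          γ ^ i * ((h * κ * h⁻¹) * κ⁻¹) * (γ ^ i)⁻¹ := by group
      rw [h1]
      exact L.nK _ hgi _ (K'.mul_mem (L.hK' _ hκ) (K'.inv_mem hκ))
    · have h1 : h * (γ ^ i * κ) * h⁻¹ = (h * γ ^ i * h⁻¹) * (h * κ * h⁻¹) := by group
      rw [h1, hu']
      group
  -- the fixed points
  let W₃ : Subgroup 𝔾 :=
    { carrier := {x | x ∈ K' ∧ ⁅h, x⁆ ∈ W₂}
      one_mem' := ⟨K'.one_mem, by rw [commutatorElement_one_right]; exact W₂.one_mem⟩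
      mul_mem' := by
        rintro a b ⟨ha, ha'⟩ ⟨hb, hb'⟩
        refine ⟨K'.mul_mem ha hb, ?_⟩
        have h1 : ⁅h, a * b⁆ = ⁅h, a⁆ * (a * ⁅h, b⁆ * a⁻¹) := by
          simp only [commutatorElement_def]
          group
        rw [h1]
        exact W₂.mul_mem ha' (hconj ha hb')
      inv_mem' := by
        rintro a ⟨ha, ha'⟩
        refine ⟨K'.inv_mem ha, ?_⟩
        have h1 : ⁅h, a⁻¹⁆ = a⁻¹ * ⁅h, a⁆⁻¹ * (a⁻¹)⁻¹ := by
          simp only [commutatorElement_def]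
          group
        rw [h1]
        exact hconj (K'.inv_mem ha) (W₂.inv_mem ha') }
  have hmem3 : ∀ x, x ∈ W₃ ↔ x ∈ K' ∧ ⁅h, x⁆ ∈ W₂ := fun x => Iff.rfl
  have hW23 : W₂ ≤ W₃ := by
    intro x hx
    refine ⟨hW2K hx, ?_⟩
    rw [commutatorElement_def]
    exact W₂.mul_mem (hsth2 x hx) (W₂.inv_mem hx)
  refine ⟨W₃, ?_, Subgroup.isOpen_mono hW23 hW2o, ?_, fun x hx => hW23 (hg2 hx), ?_, ?_, ?_⟩
  · intro x hx
    exact hfix x hx.1 (hW1W (hW2W1 hx.2))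
  · intro h0
    apply hW20
    have h3 : (W₃.subgroupOf K').index ∣ (W₂.subgroupOf K').index := by
      refine index_dvd_of_le ?_
      intro x hx
      rw [mem_subgroupOf] at hx ⊢
      exact hW23 hx
    have h5 : (W₃.subgroupOf K').index = 0 := h0
    rw [h5, zero_dvd_iff] at h3
    exact h3
  · intro x hx
    refine ⟨L.hK' x hx.1, ?_⟩
    have h1 : ⁅h, h * x * h⁻¹⁆ = h * ⁅h, x⁆ * h⁻¹ := by
      simp only [commutatorElement_def]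
      group
    rw [h1]
    exact hsth2 _ hx.2
  · intro g hgK x hx
    obtain ⟨u, hu, hu'⟩ := hcomm g hgK
    refine ⟨L.nK g hgK x hx.1, ?_⟩
    have h1 : ⁅h, g * x * g⁻¹⁆ = (u * (g * ⁅h, x⁆ * g⁻¹) * u⁻¹) * ⁅u, g * x * g⁻¹⁆ := by
      have h2 : h * (g * x * g⁻¹) * h⁻¹ = (h * g * h⁻¹) * (h * x * h⁻¹) * (h * g * h⁻¹)⁻¹ := by
        group
      rw [commutatorElement_def h (g * x * g⁻¹), h2, hu']
      simp only [commutatorElement_def]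
      group
    rw [h1]
    exact W₂.mul_mem (hconj hu (hst2 g hgK _ hx.2))
      (comm_mem_of_gens hg2 hu (L.nK g hgK x hx.1))
  · intro x hx hx2
    refine ⟨hx, ?_⟩
    have hpl : ¬ p ∣ ℓ := by
      intro h1
      rcases (Nat.dvd_prime hℓ).1 h1 with h2 | h2
      · exact hp.out.ne_one h2
      · exact hℓp h2.symm
    exact nofix hp.out hW2K hW20 hg2 h ℓ hℓ.pos hpl L.hK' hsth2 hh x hx hx2.2

/-- change of the generator, such that it commutes with `h` modulo `W` -/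
theorem change {p : ℕ} [hp : Fact p.Prime] {Ω : Type} {I : Ω → Subgroup 𝔾} {K KR K' : Subgroup 𝔾}
    {γ h : 𝔾} {ℓ q : ℕ} (L : Lay0 p I K KR K' γ h q) (hℓ : ℓ.Prime) (hh : h ^ ℓ ∈ K')
    {W : Subgroup 𝔾} (hWK : W ≤ K') (hW0 : W.relIndex K' ≠ 0) (hg : gens p I K' ⊆ W)
    (hWh : ∀ x ∈ W, h * x * h⁻¹ ∈ W) (hWc : ∀ g ∈ K, ∀ x ∈ W, g * x * g⁻¹ ∈ W)
    (hWf : ∀ x ∈ K', ⁅h, x⁆ ∈ W → x ∈ W) :
    ∃ γ' : 𝔾, Lay0 p I K KR K' γ' h q ∧ ⁅h, γ'⁆ ∈ W := by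
  obtain ⟨V, _, _, mk, hs, hk, hexp⟩ := exists_quo hWK hW0 hg
  obtain ⟨φ, hφ, hφn⟩ := exists_aut mk hs hk h L.hK' hWh ℓ hℓ.pos hh
  have hK'K : K' ≤ K := L.le1.trans L.le2
  have hcK : ∀ x ∈ K', ⁅h, x⁆ ∈ K' := by
    intro x hx
    rw [commutatorElement_def]
    exact K'.mul_mem (L.hK' x hx) (K'.inv_mem hx)
  have hfixV : ∀ v, φ v = v → v = 1 := by
    intro v hv
    obtain ⟨x, rfl⟩ := hs v
    rw [hφ, ← mul_inv_eq_one, ← map_inv, ← map_mul, hk] at hv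
    rw [hk]
    refine hWf x x.2 ?_
    rw [commutatorElement_def]
    exact hv
  have hinj : Function.Injective (fun v : V => φ v * v⁻¹) := by
    intro a b hab
    have h1 : φ a * a⁻¹ = φ b * b⁻¹ := hab
    have h2 : φ (a * b⁻¹) = a * b⁻¹ := by
      rw [map_mul, map_inv]
      calc φ a * (φ b)⁻¹ = (φ a * a⁻¹) * (a * (φ b)⁻¹) := by group
        _ = (φ b * b⁻¹) * (a * (φ b)⁻¹) := by rw [h1]
        _ = (φ b * (φ b)⁻¹) * (a * b⁻¹) := by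
            rw [mul_comm a (φ b)⁻¹, mul_assoc, mul_left_comm b⁻¹, ← mul_assoc, mul_comm b⁻¹ a]
        _ = a * b⁻¹ := by rw [mul_inv_cancel, one_mul]
    exact mul_inv_eq_one.1 (hfixV _ h2)
  have hsur : Function.Surjective (fun v : V => φ v * v⁻¹) :=
    Finite.injective_iff_surjective.1 hinj
  have hz : γ⁻¹ * ⁅h, γ⁆⁻¹ * (γ⁻¹)⁻¹ ∈ K' := L.nK _ (K.inv_mem L.memγ) _ (K'.inv_mem L.comm)
  obtain ⟨v, hv⟩ := hsur (mk ⟨_, hz⟩)
  obtain ⟨⟨κ, hκ⟩, rfl⟩ := hs v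
  have hw : (γ⁻¹ * ⁅h, γ⁆⁻¹ * (γ⁻¹)⁻¹)⁻¹ * ⁅h, κ⁆ ∈ W := by
    have h1 : φ (mk ⟨κ, hκ⟩) * (mk ⟨κ, hκ⟩)⁻¹ = mk ⟨⁅h, κ⁆, hcK κ hκ⟩ := by
      rw [hφ, ← map_inv, ← map_mul]
      congr 1
    have h2 : mk ⟨_, hz⟩ = mk ⟨⁅h, κ⁆, hcK κ hκ⟩ := by
      rw [← h1]
      exact hv.symm
    have h3 : mk ((⟨_, hz⟩ : K')⁻¹ * ⟨⁅h, κ⁆, hcK κ hκ⟩) = 1 := by
      rw [map_mul, map_inv, h2, inv_mul_cancel]
    rw [hk] at h3
    exact h3
  have hcom : ⁅h, γ * κ⁆ ∈ W := by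
    have h1 : ⁅h, γ * κ⁆ = γ * ((γ⁻¹ * ⁅h, γ⁆⁻¹ * (γ⁻¹)⁻¹)⁻¹ * ⁅h, κ⁆) * γ⁻¹ := by
      simp only [commutatorElement_def]
      group
    rw [h1]
    exact hWc γ L.memγ _ hw
  have hpow : ∀ i : ℕ, ∃ y ∈ K', (γ * κ) ^ i = γ ^ i * y := by
    intro i
    have hβ : γ * κ * γ⁻¹ ∈ K' := L.nK _ L.memγ _ hκ
    obtain ⟨y, hy, h1⟩ := pow_conj_form L.nK L.memγ hβ 1 i
    refine ⟨y, hy, ?_⟩
    rw [← one_mul i, ← h1]
    congr 1
    group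
  refine ⟨γ * κ, ⟨L.le1, L.le2, L.nK, L.nR, L.hK, L.hR, L.hK', K.mul_mem L.memγ (hK'K hκ), ?_, ?_,
    ?_, L.pow, ?_, hWK hcom, L.ram⟩, hcom⟩
  · intro x hx
    obtain ⟨i, κ', hκ', rfl⟩ := L.gen x hx
    obtain ⟨y, hy, h1⟩ := hpow i
    refine ⟨i, y⁻¹ * κ', K'.mul_mem (K'.inv_mem hy) hκ', ?_⟩
    rw [h1]
    group
  · obtain ⟨y, hy, h1⟩ := hpow q
    rw [h1]
    exact KR.mul_mem L.memq (L.le1 hy)
  · intro x hx
    obtain ⟨i, κ', hκ', rfl⟩ := L.genR x hx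
    obtain ⟨y, hy, h1⟩ := hpow (q * i)
    refine ⟨i, y⁻¹ * κ', K'.mul_mem (K'.inv_mem hy) hκ', ?_⟩
    rw [h1]
    group
  · obtain ⟨s, hs⟩ := L.powK
    obtain ⟨y, hy, h1⟩ := hpow (p ^ s)
    refine ⟨s, ?_⟩
    rw [h1]
    exact K'.mul_mem hs hy

theorem unit0 [TopologicalSpace 𝔾] [ContinuousMul 𝔾] (p : ℕ) [hp : Fact p.Prime] (Ω : Type)
    (I : Ω → Subgroup 𝔾) (K KR K' : Subgroup 𝔾) (γ h : 𝔾) (n q C : ℕ)
    (L : Lay0 p I K KR K' γ h q) (hhn : h ^ n ∈ K') (hpn : ¬ p ∣ n) (hRel : RelLe p I KR h C)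
    (W : Subgroup 𝔾) (hWK : W ≤ K') (hWo : IsOpen (W : Set 𝔾)) (hW0 : W.relIndex K' ≠ 0)
    (hg : gens p I K' ⊆ W) (hWh : ∀ x ∈ W, h * x * h⁻¹ ∈ W)
    (hWc : ∀ g ∈ K, ∀ x ∈ W, g * x * g⁻¹ ∈ W) (hWf : ∀ x ∈ K', ⁅h, x⁆ ∈ W → x ∈ W)
    (hhγ : ⁅h, γ⁆ ∈ W) :
    ∃ We : Subgroup 𝔾, W ≤ We ∧ We ≤ K' ∧
      (∀ x, x ∈ We ↔ x ∈ K' ∧ ∃ y ∈ K', ((fun z => ⁅γ, z⁆)^[q] y)⁻¹ * x ∈ W) ∧
      We.relIndex K' ≤ C := by
  classical
  obtain ⟨V, _, _, φ, hφm, hφ0, hφs, hφG⟩ := setup p I K' W hWK hg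
  obtain ⟨b, hb⟩ := L.pow
  obtain ⟨s, hs⟩ := L.powK
  have hK'K : K' ≤ K := L.le1.trans L.le2
  have hφ1 : φ 1 = 0 := (hφ0 1 K'.one_mem).2 W.one_mem
  have hφi : ∀ x ∈ K', φ x⁻¹ = -φ x := by
    intro x hx
    have h1 := hφm x hx x⁻¹ (K'.inv_mem hx)
    rw [mul_inv_cancel, hφ1] at h1
    exact (neg_eq_of_add_eq_zero_right h1.symm).symm
  have hφW : ∀ x ∈ W, φ x = 0 := fun x hx => (hφ0 x (hWK hx)).2 hx
  have hKc : ∀ g ∈ K, ∀ x ∈ K', g * x * g⁻¹ ∈ K' := L.nK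
  obtain ⟨Γ, hΓ⟩ := hφG γ (hKc γ L.memγ) (fun x hx => hWc γ L.memγ x hx)
  obtain ⟨H, hH⟩ := hφG h L.hK' hWh
  have hκ : ∀ κ ∈ K', ∀ x ∈ K', φ (κ * x * κ⁻¹) = φ x := by
    intro κ hκ x hx
    rw [hφm _ (K'.mul_mem hκ hx) _ (K'.inv_mem hκ), hφm _ hκ _ hx, hφi _ hκ]
    abel
  have hΓi : ∀ i : ℕ, ∀ x ∈ K', φ (γ ^ i * x * (γ ^ i)⁻¹) = (Γ ^ i) (φ x) := by
    intro i
    induction i with
    | zero => intro x hx; simp
    | succ i ih =>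
      intro x hx
      have h1 : γ ^ (i + 1) * x * (γ ^ (i + 1))⁻¹ = γ ^ i * (γ * x * γ⁻¹) * (γ ^ i)⁻¹ := by
        rw [pow_succ]
        group
      rw [h1, ih _ (hKc γ L.memγ x hx), hΓ x hx, pow_succ, Module.End.mul_apply]
  have hHi : ∀ i : ℕ, ∀ x ∈ K', φ (h ^ i * x * (h ^ i)⁻¹) = (H ^ i) (φ x) := by
    intro i
    induction i with
    | zero => intro x hx; simp
    | succ i ih =>
      intro x hx
      have h1 : h ^ (i + 1) * x * (h ^ (i + 1))⁻¹ = h ^ i * (h * x * h⁻¹) * (h ^ i)⁻¹ := by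
        rw [pow_succ]
        group
      rw [h1, ih _ (L.hK' x hx), hH x hx, pow_succ, Module.End.mul_apply]
  have hcomK : ∀ g ∈ K, ∀ x ∈ K', ⁅g, x⁆ ∈ K' := by
    intro g hg' x hx
    rw [commutatorElement_def]
    exact K'.mul_mem (hKc g hg' x hx) (K'.inv_mem hx)
  obtain ⟨T, hTdef⟩ : ∃ T : Module.End (ZMod p) V, T = Γ - 1 := ⟨_, rfl⟩
  obtain ⟨e, he⟩ : ∃ e : ℕ, e = q := ⟨_, rfl⟩
  have hT : ∀ x ∈ K', φ ⁅γ, x⁆ = T (φ x) := by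
    intro x hx
    rw [commutatorElement_def, hφm _ (hKc γ L.memγ x hx) _ (K'.inv_mem hx), hΓ x hx, hφi x hx,
      hTdef, LinearMap.sub_apply, Module.End.one_apply]
    abel
  have hTi : ∀ k : ℕ, ∀ y ∈ K', (fun z => ⁅γ, z⁆)^[k] y ∈ K' ∧
      φ ((fun z => ⁅γ, z⁆)^[k] y) = (T ^ k) (φ y) := by
    intro k
    induction k with
    | zero => intro y hy; exact ⟨hy, by simp⟩
    | succ k ih =>
      intro y hy
      rw [Function.iterate_succ_apply']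
      refine ⟨hcomK γ L.memγ _ (ih y hy).1, ?_⟩
      rw [hT _ (ih y hy).1, (ih y hy).2, pow_succ', Module.End.mul_apply]
  have hΓT : ∀ i j : ℕ, Γ ^ i * T ^ j = T ^ j * Γ ^ i := by
    intro i j
    have h1 : Commute Γ T := by
      rw [hTdef]
      exact (Commute.refl Γ).sub_right (Commute.one_right Γ)
    exact (h1.pow_pow i j).eq
  have hHΓ : H * Γ = Γ * H := by
    ext v
    obtain ⟨x, hx, rfl⟩ := hφs v
    rw [Module.End.mul_apply, Module.End.mul_apply, ← hΓ x hx, ← hH x hx,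
      ← hH _ (hKc γ L.memγ x hx), ← hΓ _ (L.hK' x hx)]
    have h1 : h * (γ * x * γ⁻¹) * h⁻¹ = ⁅h, γ⁆ * (γ * (h * x * h⁻¹) * γ⁻¹) * ⁅h, γ⁆⁻¹ := by
      rw [commutatorElement_def]
      group
    rw [h1, hκ _ L.comm _ (hKc γ L.memγ _ (L.hK' x hx))]
  have hHT : ∀ j : ℕ, H * T ^ j = T ^ j * H := by
    intro j
    have h1 : Commute H T := by
      rw [hTdef]
      exact Commute.sub_right hHΓ (Commute.one_right H)
    exact (h1.pow_right j).eq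
  have hHn : H ^ n = 1 := by
    ext v
    obtain ⟨x, hx, rfl⟩ := hφs v
    rw [← hHi n x hx, hκ _ hhn _ hx]
    rfl
  have hHf : ∀ v, H v = v → v = 0 := by
    intro v hv
    obtain ⟨x, hx, rfl⟩ := hφs v
    rw [← hH x hx] at hv
    refine hφW x (hWf x hx ?_)
    have h1 : ⁅h, x⁆ ∈ K' := by
      rw [commutatorElement_def]
      exact K'.mul_mem (L.hK' x hx) (K'.inv_mem hx)
    rw [← hφ0 _ h1, commutatorElement_def, hφm _ (L.hK' x hx) _ (K'.inv_mem hx), hφi x hx, hv]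
    abel
  -- the group `We`
  let R : Submodule (ZMod p) V := LinearMap.range (T ^ e)
  have hRΓ : ∀ i : ℕ, ∀ v ∈ R, (Γ ^ i) v ∈ R := by
    rintro i _ ⟨v, rfl⟩
    refine ⟨(Γ ^ i) v, ?_⟩
    rw [← Module.End.mul_apply, ← hΓT, Module.End.mul_apply]
  have hRH : ∀ v ∈ R, H v ∈ R := by
    rintro _ ⟨v, rfl⟩
    refine ⟨H v, ?_⟩
    rw [← Module.End.mul_apply, ← hHT, Module.End.mul_apply]
  let We : Subgroup 𝔾 :=
    { carrier := {x | x ∈ K' ∧ φ x ∈ R}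
      one_mem' := ⟨K'.one_mem, by rw [hφ1]; exact R.zero_mem⟩
      mul_mem' := by
        rintro x y ⟨hx, hx'⟩ ⟨hy, hy'⟩
        refine ⟨K'.mul_mem hx hy, ?_⟩
        rw [hφm x hx y hy]
        exact R.add_mem hx' hy'
      inv_mem' := by
        rintro x ⟨hx, hx'⟩
        refine ⟨K'.inv_mem hx, ?_⟩
        rw [hφi x hx]
        exact R.neg_mem hx' }
  have hmWe : ∀ x, x ∈ We ↔ x ∈ K' ∧ φ x ∈ R := fun x => Iff.rfl
  have hWWe : W ≤ We := by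
    intro x hx
    refine ⟨hWK hx, ?_⟩
    rw [hφW x hx]
    exact R.zero_mem
  have hWeK' : We ≤ K' := fun x hx => hx.1
  have hWeK : ∀ g ∈ K, ∀ x ∈ We, g * x * g⁻¹ ∈ We := by
    intro g hg' x hx
    refine ⟨hKc g hg' x hx.1, ?_⟩
    obtain ⟨i, κ, hκ', rfl⟩ := L.gen g hg'
    have h1 : γ ^ i * κ * x * (γ ^ i * κ)⁻¹ = γ ^ i * (κ * x * κ⁻¹) * (γ ^ i)⁻¹ := by group
    rw [h1, hΓi i _ (hKc κ (hK'K hκ') x hx.1), hκ κ hκ' x hx.1]
    exact hRΓ i _ hx.2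
  have hWeh : ∀ x ∈ We, h * x * h⁻¹ ∈ We := by
    intro x hx
    refine ⟨L.hK' x hx.1, ?_⟩
    rw [hH x hx.1]
    exact hRH _ hx.2
  obtain ⟨ρ, hρ⟩ : ∃ ρ : 𝔾, ρ = γ ^ q := ⟨_, rfl⟩
  have hρR : ρ ∈ KR := by
    rw [hρ]
    exact L.memq
  have hρK : ρ ∈ K := L.le2 hρR
  -- `h` commutes with the powers of `ρ` modulo `W`
  have hρh : ∃ w ∈ W, h * ρ * h⁻¹ = w * ρ := by
    have h0 : ∀ i : ℕ, ∃ w ∈ W, (h * γ * h⁻¹) ^ i = w * γ ^ i := by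
      intro i
      induction i with
      | zero => exact ⟨1, W.one_mem, by simp⟩
      | succ i ih =>
        obtain ⟨w, hw, h1⟩ := ih
        refine ⟨w * (γ ^ i * ⁅h, γ⁆ * (γ ^ i)⁻¹), W.mul_mem hw
          (hWc _ (K.pow_mem L.memγ i) _ hhγ), ?_⟩
        rw [pow_succ, h1, commutatorElement_def, pow_succ]
        group
    obtain ⟨w, hw, h1⟩ := h0 q
    refine ⟨w, hw, ?_⟩
    rw [hρ, ← h1, conj_pow]
  have hzp : ∀ i : ℤ, ∃ w ∈ W, (h * ρ * h⁻¹) ^ i = w * ρ ^ i := by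
    obtain ⟨w, hw, h1⟩ := hρh
    have h0 : ∀ i : ℕ, ∃ w ∈ W, (h * ρ * h⁻¹) ^ i = w * ρ ^ i := by
      intro i
      induction i with
      | zero => exact ⟨1, W.one_mem, by simp⟩
      | succ i ih =>
        obtain ⟨w', hw', h2⟩ := ih
        refine ⟨w' * (ρ ^ i * w * (ρ ^ i)⁻¹), W.mul_mem hw' (hWc _ (K.pow_mem hρK i) _ hw), ?_⟩
        rw [pow_succ, h2, h1, pow_succ]
        group
    intro i
    obtain ⟨j, rfl | rfl⟩ := i.eq_nat_or_neg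
    · obtain ⟨w', hw', h2⟩ := h0 j
      exact ⟨w', hw', by rw [zpow_natCast, zpow_natCast, h2]⟩
    · obtain ⟨w', hw', h2⟩ := h0 j
      refine ⟨(ρ ^ j)⁻¹ * w'⁻¹ * ((ρ ^ j)⁻¹)⁻¹,
        hWc _ (K.inv_mem (K.pow_mem hρK j)) _ (W.inv_mem hw'), ?_⟩
      rw [zpow_neg, zpow_neg, zpow_natCast, zpow_natCast, h2]
      group
  let U : Subgroup 𝔾 :=
    { carrier := {x | ∃ i : ℤ, ∃ w ∈ We, x = ρ ^ i * w}
      one_mem' := ⟨0, 1, We.one_mem, by simp⟩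
      mul_mem' := by
        rintro _ _ ⟨i, w, hw, rfl⟩ ⟨j, w', hw', rfl⟩
        refine ⟨i + j, ρ ^ (-j) * w * (ρ ^ (-j))⁻¹ * w', We.mul_mem
          (hWeK _ (K.zpow_mem hρK _) w hw) hw', ?_⟩
        group
      inv_mem' := by
        rintro _ ⟨i, w, hw, rfl⟩
        refine ⟨-i, ρ ^ i * w⁻¹ * (ρ ^ i)⁻¹, hWeK _ (K.zpow_mem hρK _) _ (We.inv_mem hw), ?_⟩
        group }
  have hWeU : We ≤ U := fun w hw => ⟨0, w, hw, by simp⟩
  have hρU : ρ ∈ U := ⟨1, 1, We.one_mem, by simp⟩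
  have hUR : U ≤ KR := by
    rintro _ ⟨i, w, hw, rfl⟩
    exact KR.mul_mem (KR.zpow_mem hρR _) (L.le1 (hWeK' hw))
  have hUK' : U ⊓ K' = We := by
    apply le_antisymm
    · rintro _ ⟨⟨i, w, hw, rfl⟩, hx⟩
      have h1 : ρ ^ i ∈ K' := by
        have h2 := K'.mul_mem hx (K'.inv_mem (hWeK' hw))
        rwa [mul_inv_cancel_right] at h2
      refine We.mul_mem (hWWe (hWf _ h1 ?_)) hw
      have h3 : h * ρ ^ i * h⁻¹ = (h * ρ * h⁻¹) ^ i := (conj_zpow).symm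
      obtain ⟨w', hw', h4⟩ := hzp i
      rw [commutatorElement_def, h3, h4, mul_inv_cancel_right]
      exact hw'
    · exact le_inf hWeU hWeK'
  -- decomposition of `KR`
  have hdec : ∀ x ∈ KR, ∃ i : ℕ, ∃ y ∈ K', x = ρ ^ i * y := by
    intro x hx
    obtain ⟨i, κ, hκ', h1⟩ := L.genR x hx
    refine ⟨i, κ, hκ', ?_⟩
    rw [hρ, h1, pow_mul]
  have hρc : ∀ y ∈ K', ⁅ρ, y⁆ ∈ We := by
    intro y hy
    refine ⟨hcomK ρ hρK y hy, ?_⟩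
    have h2 : γ ^ q * y * (γ ^ q)⁻¹ ∈ K' := hKc _ (K.pow_mem L.memγ _) y hy
    rw [commutatorElement_def, hρ, hφm _ h2 _ (K'.inv_mem hy), hΓi q y hy, hφi y hy]
    refine ⟨φ y, ?_⟩
    rw [he, hb, hTdef, ← end_pow, LinearMap.sub_apply, Module.End.one_apply]
    abel
  -- the quotient `K / We`
  have hN : (We.subgroupOf K).Normal := by
    refine ⟨fun x hx g => ?_⟩
    rw [mem_subgroupOf] at hx ⊢
    exact hWeK g g.2 _ hx
  let π : K →* K ⧸ We.subgroupOf K := QuotientGroup.mk' (We.subgroupOf K)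
  have hπ : ∀ x : K, π x = 1 ↔ (x : 𝔾) ∈ We := by
    intro x
    have h1 : π x = 1 ↔ x ∈ We.subgroupOf K := QuotientGroup.eq_one_iff x
    rw [h1, mem_subgroupOf]
  have hcm : ∀ x y : K, ⁅(x : 𝔾), (y : 𝔾)⁆ ∈ We → Commute (π x) (π y) := by
    intro x y hxy
    rw [← commutatorElement_eq_one_iff_commute, ← map_commutatorElement, hπ]
    exact hxy
  have hcr : ∀ y (hy : y ∈ K'), Commute (π ⟨ρ, hρK⟩) (π ⟨y, hK'K hy⟩) := fun y hy =>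
    hcm _ _ (hρc y hy)
  have hcy : ∀ y (hy : y ∈ K') z (hz : z ∈ K'), Commute (π ⟨y, hK'K hy⟩) (π ⟨z, hK'K hz⟩) :=
    fun y hy z hz => hcm _ _ (hWWe (comm_mem_of_gens hg hy hz))
  have hgens : gens p I KR ⊆ U := by
    rintro x ((⟨c, hc, rfl⟩ | ⟨c, hc, d, hd, rfl⟩) | ⟨hx, w, hw⟩)
    · obtain ⟨i, y, hy, rfl⟩ := hdec c hc
      have h2 : π (((⟨ρ, hρK⟩ : K) ^ (i * p))⁻¹ * ((⟨ρ, hρK⟩ : K) ^ i * ⟨y, hK'K hy⟩) ^ p) = 1 := by
        have h3 : π ⟨y, hK'K hy⟩ ^ p = 1 := by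
          rw [← map_pow, hπ]
          exact hWWe (pow_mem_of_gens hg hy)
        have h4 : Commute (π ⟨ρ, hρK⟩ ^ i) (π ⟨y, hK'K hy⟩) := (hcr y hy).pow_left i
        simp only [map_mul, map_inv, map_pow]
        rw [h4.mul_pow, h3, mul_one, ← pow_mul, inv_mul_cancel]
      rw [hπ] at h2
      have h3 : ((ρ ^ i * y) ^ p : 𝔾) = ρ ^ (i * p) * ((ρ ^ (i * p))⁻¹ * (ρ ^ i * y) ^ p) := by
        group
      show (ρ ^ i * y) ^ p ∈ U
      rw [h3]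
      exact U.mul_mem (U.pow_mem hρU _) (hWeU h2)
    · obtain ⟨i, y, hy, rfl⟩ := hdec c hc
      obtain ⟨j, z, hz, rfl⟩ := hdec d hd
      apply hWeU
      have h1 : Commute (π (⟨ρ, hρK⟩ ^ i * ⟨y, hK'K hy⟩)) (π (⟨ρ, hρK⟩ ^ j * ⟨z, hK'K hz⟩)) := by
        rw [map_mul, map_mul, map_pow, map_pow]
        refine Commute.mul_left (Commute.mul_right ?_ ?_) (Commute.mul_right ?_ ?_)
        · exact (Commute.refl _).pow_pow i j
        · exact (hcr z hz).pow_left i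
        · exact (hcr y hy).symm.pow_right j
        · exact hcy y hy z hz
      rw [← commutatorElement_eq_one_iff_commute, ← map_commutatorElement, hπ] at h1
      exact h1
    · exact hWeU (hWWe (hg (Or.inr ⟨L.ram w x hw hx, w, hw⟩)))
  have hUh : ∀ x ∈ U, h * x * h⁻¹ ∈ U := by
    have h0 : h * ρ * h⁻¹ ∈ U := by
      obtain ⟨w, hw, h1⟩ := hρh
      rw [h1]
      exact U.mul_mem (hWeU (hWWe hw)) hρU
    rintro _ ⟨i, w, hw, rfl⟩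
    have h1 : h * (ρ ^ i * w) * h⁻¹ = (h * ρ * h⁻¹) ^ i * (h * w * h⁻¹) := by
      rw [conj_zpow]
      group
    rw [h1]
    exact U.mul_mem (U.zpow_mem h0 i) (hWeU (hWeh w hw))
  have hUf : ∀ x ∈ KR, ⁅h, x⁆ ∈ U → x ∈ U := by
    intro x hx hxU
    obtain ⟨i, y, hy, rfl⟩ := hdec x hx
    have hu : ρ ^ i ∈ U := U.pow_mem hρU i
    have h1 : ⁅h, y⁆ = (h * ρ ^ i * h⁻¹)⁻¹ * ⁅h, ρ ^ i * y⁆ * ρ ^ i := by
      rw [commutatorElement_def, commutatorElement_def]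
      group
    have h2 : ⁅h, y⁆ ∈ U := by
      rw [h1]
      exact U.mul_mem (U.mul_mem (U.inv_mem (hUh _ hu)) hxU) hu
    have h3 : ⁅h, y⁆ ∈ K' := by
      rw [commutatorElement_def]
      exact K'.mul_mem (L.hK' y hy) (K'.inv_mem hy)
    have h4 : ⁅h, y⁆ ∈ We := by
      rw [← hUK']
      exact ⟨h2, h3⟩
    have h5 : H (φ y) - φ y ∈ R := by
      have h6 := h4.2
      rw [commutatorElement_def, hφm _ (L.hK' y hy) _ (K'.inv_mem hy), hH y hy, hφi y hy,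
        ← sub_eq_add_neg] at h6
      exact h6
    exact U.mul_mem hu (hWeU ⟨hy, fixed_mod H n hpn hHn hHf R hRH _ h5⟩)
  -- indices
  have hKf : K'.relIndex KR ≠ 0 :=
    index_cyc hp.out.pos L.memq L.genR hs (fun x hx => hKc _ (K.pow_mem L.memγ _) x hx)
  have hWU : W ≤ U := hWWe.trans hWeU
  have hWR : W.relIndex KR ≠ 0 := by
    rw [← relIndex_mul_relIndex W K' KR hWK L.le1]
    exact mul_ne_zero hW0 hKf
  have hUR0 : U.relIndex KR ≠ 0 := by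
    intro h1
    have h2 := relIndex_mul_relIndex W U KR hWU hUR
    rw [h1, mul_zero] at h2
    exact hWR h2.symm
  have hUC : U.relIndex KR ≤ C :=
    hRel U hUR (Subgroup.isOpen_mono hWU hWo) hUR0 hgens hUh hUf
  have hfin : We.relIndex K' ≤ C := by
    rw [← hUK', inf_relIndex_right]
    exact (relIndex_le_of_le_right L.le1 hUR0).trans hUC
  refine ⟨We, hWWe, hWeK', ?_, hfin⟩
  intro x
  rw [hmWe, ← he]
  refine and_congr_right fun hx => ?_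
  constructor
  · rintro ⟨v, hv⟩
    obtain ⟨y, hy, rfl⟩ := hφs v
    refine ⟨y, hy, ?_⟩
    obtain ⟨h1, h2⟩ := hTi e y hy
    rw [← hφ0 _ (K'.mul_mem (K'.inv_mem h1) hx), hφm _ (K'.inv_mem h1) _ hx, hφi _ h1, h2, hv]
    abel
  · rintro ⟨y, hy, h3⟩
    refine ⟨φ y, ?_⟩
    obtain ⟨h1, h2⟩ := hTi e y hy
    rw [← hφ0 _ (K'.mul_mem (K'.inv_mem h1) hx), hφm _ (K'.inv_mem h1) _ hx, hφi _ h1, h2] at h3
    exact (neg_add_eq_zero.1 h3)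

/-- **Q5.** -/
theorem t_Q5 : S_layer0 := by
  intro 𝔾 _ _ _ p hp Ω _ I K KR K' γ₀ h ℓ f q C hI L₀ hℓ hℓp hh hord hC hR W hWK hWo hW0 hg hWh hfix
  have hK'K : K' ≤ K := L₀.le1.trans L₀.le2
  obtain ⟨W₃, h3W, h3o, h30, h3g, h3h, h3K, h3f⟩ :=
    exists_stable0 hI L₀ hℓ hℓp hh hWK hWo hW0 hg hfix
  have h3K' : W₃ ≤ K' := h3W.trans hWK
  have hpl : ¬ p ∣ ℓ := by
    intro h1
    rcases (Nat.dvd_prime hℓ).1 h1 with h2 | h2
    · exact hp.out.ne_one h2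
    · exact hℓp h2.symm
  -- it is enough to bound the index of `W₃`
  suffices hmain : W₃.relIndex K' ≤ C by
    refine le_trans ?_ hmain
    refine Nat.le_of_dvd (Nat.pos_of_ne_zero h30) ?_
    refine index_dvd_of_le ?_
    intro x hx
    rw [mem_subgroupOf] at hx ⊢
    exact h3W hx
  obtain ⟨γ, L, hhγ⟩ := change L₀ hℓ hh h3K' h30 h3g h3h h3K h3f
  obtain ⟨We, hWWe, hWeK, hWe, hWeC⟩ := unit0 p Ω I K KR K' γ h ℓ q C L hh hpl hR W₃ h3K' h3o h30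
    h3g h3h h3K h3f hhγ
  -- the quotient
  obtain ⟨V, _, _, mk, hs, hk, hexp⟩ := exists_quo h3K' h30 h3g
  obtain ⟨φ, hφ, hφn⟩ := exists_aut mk hs hk h L.hK' h3h ℓ hℓ.pos hh
  obtain ⟨s, hs'⟩ := L.powK
  have hps : 0 < p ^ s := Nat.pos_of_ne_zero (pow_ne_zero _ hp.out.ne_zero)
  have hγK' : ∀ x ∈ K', γ * x * γ⁻¹ ∈ K' := L.nK γ L.memγ
  obtain ⟨g, hgg, hgn⟩ := exists_aut mk hs hk γ hγK' (h3K γ L.memγ) (p ^ s) hps hs'
  have hcK : ∀ c : 𝔾, (∀ x ∈ K', c * x * c⁻¹ ∈ K') → ∀ x ∈ K', ⁅c, x⁆ ∈ K' := by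
    intro c hc x hx
    rw [commutatorElement_def]
    exact K'.mul_mem (hc x hx) (K'.inv_mem hx)
  -- fixed points
  have hfixV : ∀ v, φ v = v → v = 1 := by
    intro v hv
    obtain ⟨x, rfl⟩ := hs v
    rw [hφ, ← mul_inv_eq_one, ← map_inv, ← map_mul, hk] at hv
    rw [hk]
    refine h3f x x.2 ?_
    rw [commutatorElement_def]
    exact hv
  -- commuting
  have hcommV : φ * g = g * φ := by
    ext v
    obtain ⟨x, rfl⟩ := hs v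
    rw [MulAut.mul_apply, MulAut.mul_apply, hgg, hφ, hφ, hgg, ← mul_inv_eq_one, ← map_inv,
      ← map_mul, hk]
    have h1 : ((⟨h * (γ * x * γ⁻¹) * h⁻¹, L.hK' _ (hγK' _ x.2)⟩ *
        (⟨γ * (h * x * h⁻¹) * γ⁻¹, hγK' _ (L.hK' _ x.2)⟩ : K')⁻¹ : K') : 𝔾) =
        ⁅⁅h, γ⁆, γ * (h * x * h⁻¹) * γ⁻¹⁆ := by
      push_cast
      simp only [commutatorElement_def]
      group
    show ((⟨h * (γ * x * γ⁻¹) * h⁻¹, L.hK' _ (hγK' _ x.2)⟩ *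
        (⟨γ * (h * x * h⁻¹) * γ⁻¹, hγK' _ (L.hK' _ x.2)⟩ : K')⁻¹ : K') : 𝔾) ∈ W₃
    rw [h1]
    exact comm_mem_of_gens h3g L.comm (hγK' _ (L.hK' _ x.2))
  -- iterated commutators
  set e := q with he
  have hitK : ∀ (j : ℕ) (y : 𝔾), y ∈ K' → (fun z => ⁅γ, z⁆)^[j] y ∈ K' := by
    intro j
    induction j with
    | zero => intro y hy; exact hy
    | succ j ih =>
      intro y hy
      rw [Function.iterate_succ_apply']
      exact hcK γ hγK' _ (ih y hy)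
  have hTit : ∀ (j : ℕ) (y : 𝔾) (hy : y ∈ K'),
      (Tm g ^ j : Monoid.End V) (mk ⟨y, hy⟩) = mk ⟨(fun z => ⁅γ, z⁆)^[j] y, hitK j y hy⟩ := by
    intro j
    induction j with
    | zero => intro y hy; rfl
    | succ j ih =>
      intro y hy
      rw [pow_succ']
      show Tm g ((Tm g ^ j : Monoid.End V) (mk ⟨y, hy⟩)) = _
      rw [ih]
      show g (mk _) / mk _ = _
      rw [hgg, div_eq_mul_inv, ← map_inv, ← map_mul]
      congr 1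
      apply Subtype.ext
      show γ * (fun z => ⁅γ, z⁆)^[j] y * γ⁻¹ * ((fun z => ⁅γ, z⁆)^[j] y)⁻¹ =
        (fun z => ⁅γ, z⁆)^[j + 1] y
      rw [Function.iterate_succ_apply', commutatorElement_def]
  -- the range
  have hrange : ∀ x : K', mk x ∈ ((Tm g ^ e : Monoid.End V) : V →* V).range ↔ (x : 𝔾) ∈ We := by
    intro x
    rw [hWe]
    constructor
    · rintro ⟨v, hv⟩
      obtain ⟨⟨y, hy⟩, rfl⟩ := hs v
      refine ⟨x.2, y, hy, ?_⟩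
      have h1 : (Tm g ^ e : Monoid.End V) (mk ⟨y, hy⟩) = mk x := hv
      rw [hTit, eq_comm, ← inv_mul_eq_one, eq_comm] at h1
      have h2 : mk ((⟨(fun z => ⁅γ, z⁆)^[e] y, hitK e y hy⟩ : K')⁻¹ * x) = 1 := by
        rw [map_mul, map_inv]
        have h3 := congrArg (fun t => t⁻¹) h1
        simp only [inv_one, mul_inv_rev, inv_inv] at h3
        exact h3.symm
      rw [hk] at h2
      exact h2
    · rintro ⟨-, y, hy, hyx⟩
      refine ⟨mk ⟨y, hy⟩, ?_⟩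
      show (Tm g ^ e : Monoid.End V) (mk ⟨y, hy⟩) = mk x
      rw [hTit]
      have h2 : mk ((⟨(fun z => ⁅γ, z⁆)^[e] y, hitK e y hy⟩ : K')⁻¹ * x) = 1 := by
        rw [hk]
        exact hyx
      rw [map_mul, map_inv, inv_mul_eq_one] at h2
      exact h2
  have hidx : ((Tm g ^ e : Monoid.End V) : V →* V).range.index = We.relIndex K' := by
    have h1 : (((Tm g ^ e : Monoid.End V) : V →* V).range.comap mk) = We.subgroupOf K' := by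
      ext x
      rw [mem_comap, mem_subgroupOf]
      exact hrange x
    rw [← Subgroup.index_comap_of_surjective _ hs, h1]
    rfl
  have hbot := Pool.Agent.Run7.h403.UM.t_nil p ℓ f e hℓ hℓp hord V hexp φ g hφn hfixV hcommV ⟨s, hgn⟩ (by
    rw [hidx]
    exact lt_of_le_of_lt hWeC hC)
  -- conclusion
  have hWeW : We ≤ W₃ := by
    intro x hx
    have h1 := (hrange ⟨x, hWeK hx⟩).2 hx
    rw [hbot, mem_bot, hk] at h1
    exact h1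
  have heq : We = W₃ := le_antisymm hWeW hWWe
  rw [← heq]
  exact hWeC

end Pool.Agent.Run7.h228.UM
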